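import Pool.Agent.N400.GN.H3

/-!
# Task GN/H2
-/

set_option autoImplicit false

namespace Pool.Agent.N400.GN

open Complex Filter Topology Polynomial Metric
open scoped ComplexConjugate
open Pool.Agent.N963.GN

/-- the real polynomial with the real roots of `Q` -/
noncomputable def rp (Q : ℂ[X]) : ℝ[X] :=
  C Q.leadingCoeff.re * (Q.roots.map fun w => (X - C w.re : ℝ[X])).prod

theorem eval_rp (Q : ℂ[X]) (h : ∀ w, Q.IsRoot w → w.im = 0) (z : ℂ) :
    aeval z (rp Q) = (Q.eval z + conj (Q.eval (conj z))) / 2 := by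
  classical
  have hQ0 : Q ≠ 0 := by
    rintro rfl
    have := h I (by simp)
    simp at this
  have hs : Q = C Q.leadingCoeff * (Q.roots.map fun w => (X - C w : ℂ[X])).prod :=
    (IsAlgClosed.splits Q).eq_prod_roots
  have hre : ∀ w ∈ Q.roots, ((w.re : ℝ) : ℂ) = w := by
    intro w hw
    have hw' := h w ((mem_roots hQ0).1 hw)
    apply Complex.ext <;> simp [hw']
  have he : ∀ z : ℂ, Q.eval z = Q.leadingCoeff * (Q.roots.map fun w => (z - w)).prod := by
    intro z
    conv_lhs => rw [hs]
    rw [eval_mul, eval_C, eval_multiset_prod, Multiset.map_map]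
    congr 2
    refine Multiset.map_congr rfl fun w _ => ?_
    simp
  have he2 : conj (Q.eval (conj z)) = conj Q.leadingCoeff * (Q.roots.map fun w => (z - w)).prod := by
    rw [he, map_mul, map_multiset_prod, Multiset.map_map]
    congr 2
    refine Multiset.map_congr rfl fun w hw => ?_
    have := hre w hw
    simp only [Function.comp, map_sub, Complex.conj_conj]
    rw [← this, Complex.conj_ofReal]
  have he3 : aeval z (rp Q) = ((Q.leadingCoeff.re : ℝ) : ℂ) *
      (Q.roots.map fun w => (z - w)).prod := by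
    rw [rp, map_mul, aeval_C, map_multiset_prod, Multiset.map_map]
    congr 2
    refine Multiset.map_congr rfl fun w hw => ?_
    have := hre w hw
    simp only [Function.comp, map_sub, aeval_X, aeval_C]
    congr 1
  rw [he3, he2, he z]
  have h5 : ((Q.leadingCoeff.re : ℝ) : ℂ) = (Q.leadingCoeff + conj Q.leadingCoeff) / 2 := by
    rw [Complex.add_conj]
    push_cast
    ring
  rw [h5]
  ring

theorem card_rp (Q : ℂ[X]) (hne : rp Q ≠ 0) : (rp Q).natDegree = (rp Q).roots.card := by
  have hc : Q.leadingCoeff.re ≠ 0 := by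
    intro h
    apply hne
    rw [rp, h, C_0, zero_mul]
  have h1 : (Q.roots.map fun w => (X - C w.re : ℝ[X])).prod =
      ((Q.roots.map fun w => w.re).map fun r => (X - C r : ℝ[X])).prod := by
    rw [Multiset.map_map]
    rfl
  rw [rp, natDegree_C_mul hc, roots_C_mul _ hc, h1, roots_multiset_prod_X_sub_C,
    natDegree_multiset_prod_X_sub_C_eq_card]

theorem h2 : S_H2 := by
  intro P g hP hg hsym R ε hε
  obtain ⟨hd, ⟨z0, hz0⟩, Q, hQ, hlim⟩ := hg
  -- a bound for P on the disc
  obtain ⟨B, hB⟩ : ∃ B : ℝ, ∀ z : ℂ, ‖z‖ ≤ R → ‖aeval z P‖ ≤ B := by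
    have hc : Continuous fun z : ℂ => aeval z P := P.continuous_aeval
    obtain ⟨B, hB⟩ := (isCompact_closedBall (0 : ℂ) R).exists_bound_of_continuousOn hc.continuousOn
    exact ⟨B, fun z hz => hB z (by simpa using hz)⟩
  have hB1 : 0 < |B| + 1 := by positivity
  -- uniform convergence on a big disc
  have hloc : TendstoUniformlyOn (fun (N : ℕ) (w : ℂ) => (Q N).eval w) g atTop
      (closedBall (0 : ℂ) (max R ‖z0‖)) :=
    (tendstoLocallyUniformlyOn_iff_tendstoUniformlyOn_of_compact
      (isCompact_closedBall _ _)).1 hlim.tendstoLocallyUniformlyOn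
  have hδ : 0 < min (ε / (|B| + 1)) (‖g z0‖ / 2) :=
    lt_min (div_pos hε hB1) (half_pos (norm_pos_iff.2 hz0))
  obtain ⟨N, hN⟩ := (Metric.tendstoUniformlyOn_iff.1 hloc _ hδ).exists
  have hN' : ∀ z : ℂ, ‖z‖ ≤ max R ‖z0‖ →
      ‖g z - aeval z (rp (Q N))‖ < min (ε / (|B| + 1)) (‖g z0‖ / 2) := by
    intro z hz
    rw [eval_rp (Q N) (hQ N)]
    have h1 := hN z (by simpa using hz)
    have h2 := hN (conj z) (by simpa using hz)
    rw [dist_eq_norm] at h1 h2
    have h3 : ‖g z - conj ((Q N).eval (conj z))‖ < min (ε / (|B| + 1)) (‖g z0‖ / 2) := by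
      have : g z - conj ((Q N).eval (conj z)) = conj (g (conj z) - (Q N).eval (conj z)) := by
        rw [map_sub, hsym z, Complex.conj_conj]
      rw [this, Complex.norm_conj]
      exact h2
    have h4 : g z - ((Q N).eval z + conj ((Q N).eval (conj z))) / 2 =
        ((g z - (Q N).eval z) + (g z - conj ((Q N).eval (conj z)))) / 2 := by ring
    rw [h4, norm_div, Complex.norm_ofNat, div_lt_iff₀ (by norm_num)]
    refine (norm_add_le _ _).trans_lt ?_
    linarith
  have hne : rp (Q N) ≠ 0 := by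
    intro h
    have h1 := hN' z0 (le_max_right _ _)
    rw [h, map_zero, sub_zero] at h1
    have h2 := h1.trans_le (min_le_right _ _)
    have h3 : 0 < ‖g z0‖ := norm_pos_iff.2 hz0
    linarith
  refine ⟨P * rp (Q N), mul_ne_zero hP hne, ?_, fun z hz => ?_⟩
  · rw [natDegree_mul hP hne, roots_mul (mul_ne_zero hP hne), Multiset.card_add, card_rp _ hne]
    omega
  · rw [map_mul]
    show ‖aeval z P * g z - aeval z P * aeval z (rp (Q N))‖ ≤ ε
    rw [← mul_sub, norm_mul]
    have h1 := (hN' z (hz.trans (le_max_left _ _))).le.trans (min_le_left _ _)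
    have h2 : ‖aeval z P‖ ≤ |B| + 1 := (hB z hz).trans (by linarith [le_abs_self B])
    calc ‖aeval z P‖ * ‖g z - aeval z (rp (Q N))‖ ≤ (|B| + 1) * (ε / (|B| + 1)) :=
          mul_le_mul h2 h1 (norm_nonneg _) hB1.le
      _ = ε := by field_simp

end Pool.Agent.N400.GN
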