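import Pool.Agent.N963.GN.Stm2

/-!
# Task GN/H2: real-rooted limits times a polynomial; zero-free functions of order at most 3/2
(`base1` is copied from Pool.Agent.Y275.GL.Had1.)
-/

set_option autoImplicit false

namespace Pool.Agent.N400.GN

open Complex Filter Topology Polynomial Metric
open scoped ComplexConjugate
open Pool.Agent.N963.GN

/-- a function without zeros in a disc is the exponential of a nearly linear function there -/
theorem base1 {F : ℂ → ℂ} (hF : Differentiable ℂ F) {ρ M : ℝ} (hρ : 0 < ρ)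
    (hnz : ∀ u ∈ ball (0 : ℂ) ρ, F u ≠ 0) (hb : ∀ w ∈ ball (0 : ℂ) ρ, ‖F w‖ ≤ Real.exp M) :
    0 ≤ M - Real.log ‖F 0‖ ∧ ∃ E : ℂ → ℂ, ∀ w : ℂ, ‖w‖ < ρ / 2 →
      F w = F 0 * cexp (deriv F 0 / F 0 * w + E w) ∧
      ‖E w‖ ≤ 16 * (M - Real.log ‖F 0‖) * (‖w‖ / ρ) ^ 2 := by
  have h0 : F 0 ≠ 0 := hnz 0 (mem_ball_self hρ)
  have h0n : 0 < ‖F 0‖ := norm_pos_iff.2 h0
  have hg : DifferentiableOn ℂ (fun z => deriv F z / F z) (ball 0 ρ) := by
    refine DifferentiableOn.div ?_ hF.differentiableOn hnz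
    exact (hF.contDiff (n := 2)).differentiable_deriv_two.differentiableOn
  obtain ⟨L0, hL0⟩ := hg.isExactOn_ball
  set L : ℂ → ℂ := fun z => L0 z - L0 0 with hLdef
  have hL : ∀ z ∈ ball (0 : ℂ) ρ, HasDerivAt L (deriv F z / F z) z := fun z hz =>
    (hL0 z hz).sub_const _
  have hLz : L 0 = 0 := by simp [hLdef]
  have hconst : ∀ z ∈ ball (0 : ℂ) ρ, F z * cexp (-L z) = F 0 := by
    intro z hz
    have hd : ∀ x ∈ ball (0 : ℂ) ρ, HasDerivAt (fun y => F y * cexp (-L y)) 0 x := by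
      intro x hx
      have h1 := (hF x).hasDerivAt.mul ((hL x hx).neg.cexp)
      have e : deriv F x * cexp (-L x) + F x * (cexp (-L x) * -(deriv F x / F x)) = 0 := by
        have hx' := hnz x hx
        field_simp
        ring
      have h1' : HasDerivAt (fun y => F y * cexp (-L y))
        (deriv F x * cexp (-L x) + F x * (cexp (-L x) * -(deriv F x / F x))) x := h1
      rwa [e] at h1'
    have h2 := (convex_ball (0 : ℂ) ρ).is_const_of_fderivWithin_eq_zero (𝕜 := ℂ)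
      (f := fun y => F y * cexp (-L y))
      (fun x hx => (hd x hx).differentiableAt.differentiableWithinAt) (by
        intro x hx
        rw [((hd x hx).hasFDerivAt.hasFDerivWithinAt (s := ball (0 : ℂ) ρ)).fderivWithin
          (isOpen_ball.uniqueDiffWithinAt hx)]
        ext
        simp) hz (mem_ball_self hρ)
    simpa [hLz] using h2
  have hFL : ∀ z ∈ ball (0 : ℂ) ρ, F z = F 0 * cexp (L z) := by
    intro z hz
    rw [← hconst z hz, mul_assoc, ← Complex.exp_add]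
    simp
  have hnorm : ∀ z ∈ ball (0 : ℂ) ρ, ‖F z‖ = Real.exp (Real.log ‖F 0‖ + (L z).re) := by
    intro z hz
    rw [hFL z hz, norm_mul, Complex.norm_exp, Real.exp_add, Real.exp_log h0n]
  obtain ⟨A, hA⟩ : ∃ A : ℝ, A = M - Real.log ‖F 0‖ := ⟨_, rfl⟩
  rw [← hA]
  have hre : ∀ z ∈ ball (0 : ℂ) ρ, (L z).re ≤ A := by
    intro z hz
    have h1 := hb z hz
    rw [hnorm z hz, Real.exp_le_exp] at h1
    rw [hA]
    linarith
  have hA0 : 0 ≤ A := by
    have := hre 0 (mem_ball_self hρ)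
    rwa [hLz] at this
  have hLb : ∀ w : ℂ, ‖w‖ < ρ / 2 → ‖L w‖ ≤ 2 * A := by
    intro w hw
    have hwρ : ‖w‖ < ρ := by linarith
    have hwb : w ∈ ball (0 : ℂ) ρ := by simpa using hwρ
    have hden : 0 < ρ - ‖w‖ := by linarith
    refine le_of_forall_pos_le_add (fun δ hδ => ?_)
    have h1 := Complex.borelCaratheodory_zero (f := L) (R := ρ) (z := w)
      (M := A + δ / 2) (by linarith)
      (fun z hz => (hL z hz).differentiableAt.differentiableWithinAt)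
      (fun z hz => by
        show (L z).re ≤ _
        linarith [hre z hz]) hρ hwb hLz
    refine h1.trans ?_
    rw [div_le_iff₀ hden]
    have h2 : 2 * (A + δ / 2) * ‖w‖ ≤ 2 * (A + δ / 2) * (ρ - ‖w‖) :=
      mul_le_mul_of_nonneg_left (by linarith) (by linarith)
    linarith
  have hρ2 : 0 < ρ / 2 := by positivity
  obtain ⟨β, hβ⟩ : ∃ β : ℂ, β = deriv F 0 / F 0 := ⟨_, rfl⟩
  have hLd : HasDerivAt L β 0 := by
    rw [hβ]
    exact hL 0 (mem_ball_self hρ)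
  have hsub : ball (0 : ℂ) (ρ / 2) ⊆ ball 0 ρ := ball_subset_ball (by linarith)
  have hLdo : DifferentiableOn ℂ L (ball 0 (ρ / 2)) := fun z hz =>
    (hL z (hsub hz)).differentiableAt.differentiableWithinAt
  have hβn : ‖β‖ ≤ 2 * A / (ρ / 2) := by
    have h1 := Complex.norm_deriv_le_div_of_mapsTo_ball (R₂ := 2 * A) hLdo (by
      intro z hz
      rw [hLz, mem_closedBall_zero_iff]
      exact hLb z (by simpa using hz)) hρ2
    rwa [hLd.deriv] at h1
  rw [← hβ]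
  refine ⟨hA0, fun w => L w - β * w, fun w hw => ⟨?_, ?_⟩⟩
  · have hwb : w ∈ ball (0 : ℂ) ρ := hsub (by simpa using hw)
    rw [hFL w hwb]
    congr 2
    ring
  · have h1 := Complex.dist_le_mul_div_pow_of_mapsTo_ball_of_isLittleO
      (f := fun w : ℂ => L w - β * w) (c := 0) (z := w) (R₁ := ρ / 2) (R₂ := 4 * A) (n := 1)
      (hLdo.sub (by fun_prop)) ?_ ?_ (by simpa using hw)
    · simp only [hLz, mul_zero, sub_zero, dist_zero_right] at h1
      refine h1.trans (le_of_eq ?_)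
      rw [show (1 + 1 : ℕ) = 2 from rfl]
      field_simp
      ring
    · intro z hz
      simp only [hLz, mul_zero, sub_zero, mem_closedBall_zero_iff]
      have hz' : ‖z‖ < ρ / 2 := by simpa using hz
      refine (norm_sub_le _ _).trans ?_
      rw [norm_mul]
      have h2 := hLb z hz'
      have h3 : ‖β‖ * ‖z‖ ≤ 2 * A / (ρ / 2) * (ρ / 2) :=
        mul_le_mul hβn hz'.le (norm_nonneg _) (by positivity)
      rw [div_mul_cancel₀ _ hρ2.ne'] at h3
      linarith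
    · have h2 := hLd.isLittleO
      simp only [hLz, sub_zero, smul_eq_mul, mul_zero, pow_one] at h2 ⊢
      refine h2.norm_right.congr_left fun z => ?_
      ring


theorem h3 : S_H3 := by
  intro f hf hG hnz
  obtain ⟨C, hC, hG⟩ := hG
  refine ⟨deriv f 0 / f 0, f 0, fun z => ?_⟩
  have h0 : f 0 ≠ 0 := hnz 0
  -- the error tends to zero
  have key : ∀ ρ : ℝ, 0 < ρ → ‖z‖ < ρ / 2 → ∃ e : ℂ, f z = f 0 * cexp (deriv f 0 / f 0 * z + e) ∧
      ‖e‖ ≤ 16 * (C * (1 + ρ) ^ (3 / 2 : ℝ) - Real.log ‖f 0‖) * (‖z‖ / ρ) ^ 2 := by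
    intro ρ hρ hz
    obtain ⟨-, E, hE⟩ := base1 hf hρ (fun u _ => hnz u) (M := C * (1 + ρ) ^ (3 / 2 : ℝ)) (by
      intro w hw
      refine (hG w).trans (Real.exp_le_exp.2 ?_)
      have hw' : ‖w‖ < ρ := by simpa using hw
      refine mul_le_mul_of_nonneg_left ?_ hC
      exact Real.rpow_le_rpow (by positivity) (by linarith) (by norm_num))
    exact ⟨E z, (hE z hz).1, (hE z hz).2⟩
  have hlim : Tendsto (fun n : ℕ => 16 * (C * (1 + (n : ℝ)) ^ (3 / 2 : ℝ) - Real.log ‖f 0‖) *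
      (‖z‖ / (n : ℝ)) ^ 2) atTop (𝓝 0) := by
    have hcast : Tendsto (fun n : ℕ => (n : ℝ)) atTop atTop := tendsto_natCast_atTop_atTop
    have h1 : Tendsto (fun x : ℝ => 16 * (C * (1 + x) ^ (3 / 2 : ℝ) - Real.log ‖f 0‖) *
      (‖z‖ / x) ^ 2) atTop (𝓝 0) := by
      have ha : Tendsto (fun x : ℝ => x ^ (-(1 / 2) : ℝ)) atTop (𝓝 0) :=
        tendsto_rpow_neg_atTop (by norm_num)
      have hb : Tendsto (fun x : ℝ => x ^ (-2 : ℝ)) atTop (𝓝 0) :=
        tendsto_rpow_neg_atTop (by norm_num)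
      have hup : Tendsto (fun x : ℝ => 16 * ‖z‖ ^ 2 * (C * (2 : ℝ) ^ (3 / 2 : ℝ)) *
          x ^ (-(1 / 2) : ℝ) + 16 * ‖z‖ ^ 2 * |Real.log ‖f 0‖| * x ^ (-2 : ℝ)) atTop (𝓝 0) := by
        have := (ha.const_mul (16 * ‖z‖ ^ 2 * (C * (2 : ℝ) ^ (3 / 2 : ℝ)))).add
          (hb.const_mul (16 * ‖z‖ ^ 2 * |Real.log ‖f 0‖|))
        simpa using this
      refine squeeze_zero_norm' ?_ hup
      filter_upwards [eventually_ge_atTop (1 : ℝ)] with x hx
      have hx0 : 0 < x := by linarith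
      rw [Real.norm_eq_abs, abs_mul, abs_mul, abs_of_nonneg (by norm_num : (0 : ℝ) ≤ 16),
        abs_of_nonneg (by positivity : 0 ≤ (‖z‖ / x) ^ 2)]
      have h2 : |C * (1 + x) ^ (3 / 2 : ℝ) - Real.log ‖f 0‖| ≤
          C * (2 : ℝ) ^ (3 / 2 : ℝ) * x ^ (3 / 2 : ℝ) + |Real.log ‖f 0‖| := by
        refine (abs_sub _ _).trans ?_
        rw [abs_of_nonneg (by positivity)]
        have h3 : (1 + x) ^ (3 / 2 : ℝ) ≤ (2 : ℝ) ^ (3 / 2 : ℝ) * x ^ (3 / 2 : ℝ) := by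
          rw [← Real.mul_rpow (by norm_num) hx0.le]
          exact Real.rpow_le_rpow (by positivity) (by linarith) (by norm_num)
        have h4 : C * (1 + x) ^ (3 / 2 : ℝ) ≤ C * ((2 : ℝ) ^ (3 / 2 : ℝ) * x ^ (3 / 2 : ℝ)) :=
          mul_le_mul_of_nonneg_left h3 hC
        linarith
      have e1 : x ^ (3 / 2 : ℝ) * (‖z‖ / x) ^ 2 = ‖z‖ ^ 2 * x ^ (-(1 / 2) : ℝ) := by
        rw [div_pow, show (-(1 / 2) : ℝ) = 3 / 2 - (2 : ℕ) by norm_num, Real.rpow_sub hx0,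
          Real.rpow_natCast]
        ring
      have e2 : (‖z‖ / x) ^ 2 = ‖z‖ ^ 2 * x ^ (-2 : ℝ) := by
        rw [div_pow, show (-2 : ℝ) = -((2 : ℕ) : ℝ) by norm_num, Real.rpow_neg hx0.le,
          Real.rpow_natCast]
        ring
      calc 16 * |C * (1 + x) ^ (3 / 2 : ℝ) - Real.log ‖f 0‖| * (‖z‖ / x) ^ 2
          ≤ 16 * (C * (2 : ℝ) ^ (3 / 2 : ℝ) * x ^ (3 / 2 : ℝ) + |Real.log ‖f 0‖|) *
            (‖z‖ / x) ^ 2 := by gcongr
        _ = 16 * (C * (2 : ℝ) ^ (3 / 2 : ℝ)) * (x ^ (3 / 2 : ℝ) * (‖z‖ / x) ^ 2) +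
            16 * |Real.log ‖f 0‖| * (‖z‖ / x) ^ 2 := by ring
        _ = _ := by rw [e1, e2]; ring
    exact h1.comp hcast
  -- conclude
  have hev : ∀ᶠ n : ℕ in atTop, ∃ e : ℂ, f z = f 0 * cexp (deriv f 0 / f 0 * z + e) ∧
      ‖e‖ ≤ 16 * (C * (1 + (n : ℝ)) ^ (3 / 2 : ℝ) - Real.log ‖f 0‖) * (‖z‖ / (n : ℝ)) ^ 2 := by
    have h1 : ∀ᶠ n : ℕ in atTop, 2 * ‖z‖ < (n : ℝ) ∧ 0 < (n : ℝ) :=
      (tendsto_natCast_atTop_atTop.eventually_gt_atTop (2 * ‖z‖)).and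
        (tendsto_natCast_atTop_atTop.eventually_gt_atTop 0)
    filter_upwards [h1] with n hn
    exact key n hn.2 (by linarith [hn.1])
  have hle : ∀ᶠ n : ℕ in atTop, ‖f z / (f 0 * cexp (deriv f 0 / f 0 * z)) - 1‖ ≤
      2 * (16 * (C * (1 + (n : ℝ)) ^ (3 / 2 : ℝ) - Real.log ‖f 0‖) * (‖z‖ / (n : ℝ)) ^ 2) := by
    have h1 : ∀ᶠ n : ℕ in atTop, 16 * (C * (1 + (n : ℝ)) ^ (3 / 2 : ℝ) - Real.log ‖f 0‖) *
        (‖z‖ / (n : ℝ)) ^ 2 < 1 := hlim.eventually_lt_const (by norm_num)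
    filter_upwards [hev, h1] with n hn h1
    obtain ⟨e, he1, he2⟩ := hn
    have h2 : f z / (f 0 * cexp (deriv f 0 / f 0 * z)) = cexp e := by
      rw [he1, Complex.exp_add]
      field_simp
    rw [h2]
    have h3 : ‖e‖ ≤ 1 := he2.trans h1.le
    refine (Complex.norm_exp_sub_one_le h3).trans ?_
    linarith
  have hz : ‖f z / (f 0 * cexp (deriv f 0 / f 0 * z)) - 1‖ ≤ 0 := by
    have := hlim.const_mul 2
    rw [mul_zero] at this
    exact ge_of_tendsto this hle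
  have h4 : f z / (f 0 * cexp (deriv f 0 / f 0 * z)) = 1 := by
    have := norm_le_zero_iff.1 hz
    linear_combination this
  rwa [div_eq_one_iff_eq (mul_ne_zero h0 (Complex.exp_ne_zero _))] at h4

end Pool.Agent.N400.GN
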